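import Mathlib
import Pool.Agent.Run7.h980.DW.Def2

/-!
Linear spaces of fields on an open set which are given by sparse scalar constraints, and blow-up of
the solutions of the Dirichlet problem projected on such spaces, at points which may lie on the
boundary.
-/

namespace Pool.Agent.Run7.h980.BD

open Set Filter Topology MeasureTheory
open scoped ContDiff
open Pool.Agent.Run7.h980.DW (E3 IsTest InV IsStrong Constrained innerL2 dirichlet divergence grad)

/-- The truncated cone with vertex `z` around the third axis: the points `z + y` with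
`0 < y₃ ≤ ρ` and `3 |y₁|, 3 |y₂| ≤ y₃`. -/
def cone (z : E3) (ρ : ℝ) : Set E3 :=
  {x | 0 < x 2 - z 2 ∧ x 2 - z 2 ≤ ρ ∧ 3 * |x 0 - z 0| ≤ x 2 - z 2 ∧ 3 * |x 1 - z 1| ≤ x 2 - z 2}

/-- The linear spaces `W` of fields of `H` satisfying the constraints which contain all smooth
fields with compact support of the form `∑ c_n p_n` (which vanish outside `Ω`). -/
structure IsSpace (Ω : Set E3) (p : ℕ → E3 → E3) (g : ℕ → Fin 3 → E3 → E3)
    (W : Submodule ℝ (E3 → E3)) : Prop where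
  upper : ∀ w ∈ W, Constrained Ω g w
  lower : ∀ v : E3 → E3, ContDiff ℝ ∞ v → HasCompactSupport v →
    (∃ c : ℕ → ℝ, ∀ x, HasSum (fun n => c n • p n x) (v x)) → v ∈ W

/-- The modes and the constraint fields in `Ω`, concentrated at the point `z`: `p 0 = U`; the modes
are test fields, not zero, mutually orthogonal in `L²` and for the Dirichlet form; the constraint
fields are smooth with compact support in `Ω \ {z}` and, for `n ≥ 3`, supported in the ball
`|x - z| ≤ 2^(-q^(n-1))`; the space of all fields of `H` which satisfy the constraints is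
admissible. -/
structure IsFamily (Ω : Set E3) (q : ℝ) (z : E3) (U : E3 → E3) (p : ℕ → E3 → E3)
    (g : ℕ → Fin 3 → E3 → E3) : Prop where
  zero : p 0 = U
  mode : ∀ n, IsTest Ω (p n) ∧ 0 < innerL2 (p n) (p n)
  orth : ∀ m n, m ≠ n → innerL2 (p m) (p n) = 0 ∧ dirichlet (p m) (p n) = 0
  field : ∀ n i, ContDiff ℝ ∞ (g n i) ∧ HasCompactSupport (g n i) ∧ tsupport (g n i) ⊆ Ω \ {z}
  ball : ∀ n i x, g (n + 3) i x ≠ 0 → ‖x - z‖ ≤ (2 : ℝ) ^ (-(q ^ (n + 2)))
  big : ∃ W : Submodule ℝ (E3 → E3), IsSpace Ω p g W ∧ ∀ w, w ∈ W ↔ Constrained Ω g w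

/-- Blow-up at `z` before the time `T₀` of the solutions with the datum `v` of the Dirichlet
problem in `Ω` projected on the admissible spaces. There are `T ≤ T₀` and a field `u`, smooth on
`[0,T) × ℝ³`, with `u(0) = v`, such that every `u(t)` is divergence-free, vanishes outside
`K \ {z}`, where `K` is a compact subset of `Ω ∪ {z}`, and is in `V`, `|u(t,x)| ≤ C |x - z|^(-1-δ)`,
the `L³` norm of `u(t)` tends to infinity as `t → T`, and for every admissible space `W`: `u` is a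
solution on `(0,S)` in the sense of `IsStrong` for all `S < T`, and every solution on an interval
`(0,S)` in the sense of `IsStrong`, with the same datum, has `S < T` and coincides with `u`. -/
def BlowsUp (Ω : Set E3) (δ : ℝ) (z : E3) (p : ℕ → E3 → E3) (g : ℕ → Fin 3 → E3 → E3) (ν : ℝ)
    (v : E3 → E3) (T₀ : ℝ) : Prop :=
  ∃ T, 0 < T ∧ T ≤ T₀ ∧ ∃ u : ℝ → E3 → E3,
    ContDiffOn ℝ ∞ (fun y : ℝ × E3 => u y.1 y.2) (Ico 0 T ×ˢ univ) ∧ u 0 = v ∧
    (∃ K : Set E3, IsCompact K ∧ K ⊆ Ω ∪ {z} ∧ ∀ t ∈ Ico 0 T,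
      (∀ x, divergence (u t) x = 0) ∧ InV Ω (u t) (grad (u t)) ∧
      ∀ x, x ∉ K \ {z} → u t x = 0) ∧
    (∃ C, ∀ t ∈ Ico 0 T, ∀ x, ‖u t x‖ * ‖x - z‖ ^ (1 + δ) ≤ C) ∧
    Tendsto (fun t => ∫ x, ‖u t x‖ ^ 3) (𝓝[<] T) atTop ∧
    ∀ W : Submodule ℝ (E3 → E3), IsSpace Ω p g W →
      (∀ S, S < T → IsStrong Ω W ν S v u (fun t => grad (u t))
        (fun t x i => deriv (fun s => u s x i) t)) ∧
      ∀ (S : ℝ) (w : ℝ → E3 → E3) (G : ℝ → E3 → Fin 3 → Fin 3 → ℝ) (w' : ℝ → E3 → E3),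
        IsStrong Ω W ν S v w G w' →
        S < T ∧ ∀ᵐ t ∂(volume.restrict (Ioo 0 S)), ∀ᵐ x ∂(volume.restrict Ω), w t x = u t x

end Pool.Agent.Run7.h980.BD
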