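import Mathlib
import Pool.Agent.Run7.h407.D.Fin

/-!
The supports of the chain of helper407 lie in a cone around the third axis.
-/

namespace Pool.Agent.Run7.h407.G.X.C980

open Set Filter Topology MeasureTheory
open scoped ContDiff

/-- The truncated closed cone around the third axis. -/
def CC (r : ℝ) : Set V := {x | 3 * |x 0| ≤ x 2 ∧ 3 * |x 1| ≤ x 2 ∧ ‖x‖ ≤ r}

theorem CC_mono {r r' : ℝ} (h : r ≤ r') : CC r ⊆ CC r' := fun _ hx => ⟨hx.1, hx.2.1, hx.2.2.trans h⟩

theorem CC_closed (r : ℝ) : IsClosed (CC r) := by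
  have h1 : IsClosed {x : V | 3 * |x 0| ≤ x 2} := isClosed_le (by fun_prop) (by fun_prop)
  have h2 : IsClosed {x : V | 3 * |x 1| ≤ x 2} := isClosed_le (by fun_prop) (by fun_prop)
  have h3 : IsClosed {x : V | ‖x‖ ≤ r} := isClosed_le continuous_norm continuous_const
  exact h1.inter (h2.inter h3)

theorem psi3_cone {r μ δ : ℝ} (hr : 2 ≤ r) (hμ : 2 ≤ μ) {x : V} (hx : psi3 r μ δ x ≠ 0) :
    3 * |x 0| ≤ x 2 ∧ 3 * |x 1| ≤ x 2 := by
  have key : ∀ (c : ℝ), 1 ≤ c → ‖x - c • ez‖ ≤ 1 / 4 → 3 * |x 0| ≤ x 2 ∧ 3 * |x 1| ≤ x 2 := by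
    intro c hc h
    have h0 := (norm_le_pi_norm (x - c • ez) 0).trans h
    have h1 := (norm_le_pi_norm (x - c • ez) 1).trans h
    have h2 := (norm_le_pi_norm (x - c • ez) 2).trans h
    rw [Real.norm_eq_abs] at h0 h1 h2
    have e0 : (x - c • ez) 0 = x 0 := by
      simp [ez]
    have e1 : (x - c • ez) 1 = x 1 := by
      simp [ez]
    have e2 : (x - c • ez) 2 = x 2 - c := by
      simp [ez]
    rw [e0] at h0
    rw [e1] at h1
    rw [e2] at h2
    have := (abs_le.1 h2).1
    constructor <;> linarith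
  by_contra hcon
  apply hx
  apply psi3_zero_of hμ
  · by_contra h
    have := key 1 le_rfl (by rw [one_smul]; exact not_lt.1 h)
    exact hcon this
  · by_contra h
    exact hcon (key (r ^ 2) (by nlinarith) (not_lt.1 h))

variable (c : Sc)

theorem P_cone {n : ℕ} {x : V} (hx : c.P n x ≠ 0) : 3 * |x 0| ≤ x 2 ∧ 3 * |x 1| ≤ x 2 := by
  cases n with
  | zero => exact absurd rfl hx
  | succ n =>
    have h1 : c.blk n (c.σ n ^ 2 • x) ≠ 0 := by
      intro h
      apply hx
      rw [Sc.P_succ]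
      unfold dil
      rw [h, smul_zero]
    obtain ⟨h2, h3⟩ := psi3_cone (c.rr_two n) (c.hρ n) h1
    have h4 : 0 < c.σ n ^ 2 := pow_pos (c.σ_pos n) 2
    simp only [Pi.smul_apply, smul_eq_mul, abs_mul, abs_of_pos h4] at h2 h3
    constructor
    · by_contra hcon
      push Not at hcon
      nlinarith
    · by_contra hcon
      push Not at hcon
      nlinarith

end Pool.Agent.Run7.h407.G.X.C980
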