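import Mathlib
import Pool.Agent.Run7.h980.DW.Spc

/-!
Smooth superpositions of orthogonal modes which shrink to a point are in `V`.
-/

namespace Pool.Agent.Run7.h980.BD

open Set Filter Topology MeasureTheory
open scoped ContDiff
open Pool.Agent.Run7.h407 (ip Dir dvg pd CF WDF L2F)
open Pool.Agent.Run7.h407.G.X (Loc ip_loc Dir_loc)
open Pool.Agent.Run7.h980.DW

variable {Ω : Set E3} {p : ℕ → E3 → E3} {z : E3}

/-- The partial sums. -/
noncomputable def ps (p : ℕ → E3 → E3) (c : ℕ → ℝ) (M : ℕ) (x : E3) : E3 :=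
  ∑ n ∈ Finset.range M, c n • p n x

theorem ps_succ (c : ℕ → ℝ) (M : ℕ) :
    ps p c (M + 1) = fun x => ps p c M x + c M • p M x := by
  funext x
  exact Finset.sum_range_succ _ _

/-- Orthogonal modes which shrink to `z`. -/
structure Md (Ω : Set E3) (z : E3) (p : ℕ → E3 → E3) : Prop where
  test : ∀ n, IsTest Ω (p n)
  orth : ∀ m n, m ≠ n → ip (p m) (p n) = 0 ∧ Dir (p m) (p n) = 0
  aw : ∀ n, ∀ᶠ x in 𝓝 z, p n x = 0
  sm : ∃ β : ℕ → ℝ, Tendsto β atTop (𝓝 0) ∧ ∀ n x, p n x ≠ 0 → ‖x - z‖ ≤ β n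

theorem zero_test (Ω : Set E3) : IsTest Ω (fun _ => 0) := by
  refine ⟨contDiff_const, HasCompactSupport.zero, ?_, fun x => ?_⟩
  · have : tsupport (fun _ : E3 => (0 : E3)) = ∅ := by
      simp [tsupport]
    rw [this]
    exact empty_subset _
  · unfold divergence pderiv
    simp

namespace Md

variable (h : Md Ω z p)

include h in
theorem ps_test (c : ℕ → ℝ) (M : ℕ) : IsTest Ω (ps p c M) := by
  induction M with
  | zero =>
    have e : ps p c 0 = fun _ => 0 := by
      funext x
      exact Finset.sum_range_zero _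
    rw [e]
    exact zero_test Ω
  | succ M ih =>
    rw [ps_succ]
    exact ih.add ((h.test M).smul (c M))

include h in
theorem far {v : E3 → E3} {c : ℕ → ℝ} (hs : ∀ x, HasSum (fun n => c n • p n x) (v x)) {ρ : ℝ}
    (hρ : 0 < ρ) : ∃ N, ∀ M ≥ N, ∀ x, ρ < ‖x - z‖ → v x = ps p c M x := by
  obtain ⟨β, hβ, h1⟩ := h.sm
  obtain ⟨N, hN⟩ := eventually_atTop.1 (hβ.eventually_lt_const hρ)
  refine ⟨N, fun M hM x hx => ?_⟩
  have h2 : ∀ n ∉ Finset.range M, c n • p n x = 0 := by
    intro n hn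
    rw [Finset.mem_range, not_lt] at hn
    have : p n x = 0 := by
      by_contra hcon
      have := h1 n x hcon
      have := hN n (hM.trans hn)
      linarith
    rw [this, smul_zero]
  exact (hs x).unique (hasSum_sum_of_ne_finset_zero h2)

theorem ev_lt {ρ : ℝ} {x : E3} (hx : ρ < ‖x - z‖) : ∀ᶠ y in 𝓝 x, ρ < ‖y - z‖ := by
  have : Continuous (fun y : E3 => ‖y - z‖) := by fun_prop
  exact (this.tendsto x).eventually (lt_mem_nhds hx)

theorem ev_gt {ρ : ℝ} {x : E3} (hx : ‖x - z‖ < ρ) : ∀ᶠ y in 𝓝 x, ‖y - z‖ < ρ := by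
  have : Continuous (fun y : E3 => ‖y - z‖) := by fun_prop
  exact (this.tendsto x).eventually (gt_mem_nhds hx)

include h in
theorem loc {v : E3 → E3} {c : ℕ → ℝ} (hs : ∀ x, HasSum (fun n => c n • p n x) (v x)) (k : ℕ) :
    ∃ N, ∀ M ≥ N, Loc (p k) v (ps p c M) := by
  obtain ⟨ρ, hρ, hb⟩ := Metric.eventually_nhds_iff.1 (h.aw k)
  obtain ⟨N, hN⟩ := h.far hs (half_pos hρ)
  refine ⟨N, fun M hM x => ?_⟩
  rcases lt_or_ge ‖x - z‖ ρ with hx | hx
  · left
    filter_upwards [ev_gt hx] with y hy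
    exact hb (by rwa [dist_eq_norm])
  · right
    filter_upwards [ev_lt (show ρ / 2 < ‖x - z‖ by linarith)] with y hy
    exact hN M hM y hy

end Md

/-- Symmetric nonnegative local forms. -/
structure BF (Q : (E3 → E3) → (E3 → E3) → ℝ) : Prop where
  add : ∀ u1 u2 v, CF u1 → CF u2 → CF v → Q (fun x => u1 x + u2 x) v = Q u1 v + Q u2 v
  smul : ∀ (c : ℝ) (u v : E3 → E3), CF u → Q (fun x => c • u x) v = c * Q u v
  comm : ∀ u v, Q u v = Q v u
  nn : ∀ u, 0 ≤ Q u u
  loc : ∀ c f g, Loc c f g → Q f c = Q g c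

theorem bf_ip : BF ip where
  add := fun _ _ _ h1 h2 h3 => Run7.h407.ip_add_left h1 h2 h3
  smul := fun c u v _ => Run7.h407.ip_smul_left c u v
  comm := Run7.h407.ip_comm
  nn := Run7.h407.G.ip_nonneg
  loc := fun _ _ _ h => ip_loc h

theorem bf_Dir : BF Dir where
  add := fun _ _ _ h1 h2 h3 => Run7.h407.Dir_add_left h1 h2 h3
  smul := fun c _ _ h => Run7.h407.Dir_smul_left c h
  comm := Run7.h407.Dir_comm
  nn := Run7.h407.G.Dir_nonneg'
  loc := fun _ _ _ h => Dir_loc h

namespace BF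

variable {Q : (E3 → E3) → (E3 → E3) → ℝ} (B : BF Q) (h : Md Ω z p)

include B in
theorem subl {u1 u2 v : E3 → E3} (h1 : CF u1) (h2 : CF u2) (h3 : CF v) :
    Q (fun x => u1 x - u2 x) v = Q u1 v - Q u2 v := by
  have e : (fun x => u1 x - u2 x) = fun x => u1 x + (-1 : ℝ) • u2 x := by
    funext x
    rw [neg_one_smul, sub_eq_add_neg]
  rw [e, B.add _ _ _ h1 (h2.smul _) h3, B.smul _ _ _ h2]
  ring

include B in
theorem sub_self {u v : E3 → E3} (h1 : CF u) (h2 : CF v) :
    Q (fun x => u x - v x) (fun x => u x - v x) = Q u u - 2 * Q u v + Q v v := by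
  have h3 : CF (fun x => u x - v x) := Run7.h407.G.CF.subf h1 h2
  rw [B.subl h1 h2 h3, B.comm u, B.comm v, B.subl h1 h2 h1, B.subl h1 h2 h2, B.comm v u]
  ring

include B h in
theorem ps_left (c : ℕ → ℝ) (M : ℕ) {v : E3 → E3} (hv : CF v) :
    Q (ps p c M) v = ∑ n ∈ Finset.range M, c n * Q (p n) v := by
  induction M with
  | zero =>
    have e : ps p c 0 = fun x => (0 : ℝ) • v x := by
      funext x
      rw [zero_smul]
      exact Finset.sum_range_zero _
    rw [e, B.smul _ _ _ hv, zero_mul, Finset.sum_range_zero]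
  | succ M ih =>
    rw [ps_succ, B.add _ _ _ (h.ps_test c M).cf ((h.test M).cf.smul _) hv, ih,
      B.smul _ _ _ (h.test M).cf, Finset.sum_range_succ]

include B h in
theorem ps_mode (ho : ∀ m n, m ≠ n → Q (p m) (p n) = 0) (c : ℕ → ℝ) {M k : ℕ} (hk : k < M) :
    Q (ps p c M) (p k) = c k * Q (p k) (p k) := by
  rw [B.ps_left h c M (h.test k).cf]
  apply Finset.sum_eq_single_of_mem k (Finset.mem_range.2 hk)
  intro n _ hn
  rw [ho n k hn, mul_zero]

include B h in
theorem ps_ps (ho : ∀ m n, m ≠ n → Q (p m) (p n) = 0) (c : ℕ → ℝ) {N M : ℕ} (hN : N ≤ M) :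
    Q (ps p c N) (ps p c M) = ∑ n ∈ Finset.range N, c n ^ 2 * Q (p n) (p n) := by
  rw [B.ps_left h c N (h.ps_test c M).cf]
  apply Finset.sum_congr rfl
  intro n hn
  rw [B.comm, B.ps_mode h ho c ((Finset.mem_range.1 hn).trans_le hN)]
  ring

include B h in
theorem coef (ho : ∀ m n, m ≠ n → Q (p m) (p n) = 0) {v : E3 → E3} {c : ℕ → ℝ}
    (hs : ∀ x, HasSum (fun n => c n • p n x) (v x)) (k : ℕ) :
    Q v (p k) = c k * Q (p k) (p k) := by
  obtain ⟨N, hN⟩ := h.loc hs k
  rw [B.loc _ _ _ (hN (max N (k + 1)) (le_max_left _ _))]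
  exact B.ps_mode h ho c (lt_of_lt_of_le (Nat.lt_succ_self k) (le_max_right _ _))

include B h in
theorem bessel (ho : ∀ m n, m ≠ n → Q (p m) (p n) = 0) {v : E3 → E3} (hv : CF v) {c : ℕ → ℝ}
    (hs : ∀ x, HasSum (fun n => c n • p n x) (v x)) (M : ℕ) :
    ∑ n ∈ Finset.range M, c n ^ 2 * Q (p n) (p n) ≤ Q v v := by
  have h1 := B.nn (fun x => v x - ps p c M x)
  rw [B.sub_self hv (h.ps_test c M).cf, B.ps_ps h ho c le_rfl] at h1
  have h2 : Q v (ps p c M) = ∑ n ∈ Finset.range M, c n ^ 2 * Q (p n) (p n) := by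
    rw [B.comm, B.ps_left h c M hv]
    apply Finset.sum_congr rfl
    intro n _
    rw [B.comm, B.coef h ho hs n]
    ring
  rw [h2] at h1
  linarith

include B h in
theorem summ (ho : ∀ m n, m ≠ n → Q (p m) (p n) = 0) {v : E3 → E3} (hv : CF v) {c : ℕ → ℝ}
    (hs : ∀ x, HasSum (fun n => c n • p n x) (v x)) :
    Summable (fun n => c n ^ 2 * Q (p n) (p n)) :=
  summable_of_sum_range_le (fun n => mul_nonneg (sq_nonneg _) (B.nn _)) (B.bessel h ho hv hs)

include B h in
/-- The tails are small. -/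
theorem tail (ho : ∀ m n, m ≠ n → Q (p m) (p n) = 0) {v : E3 → E3} (hv : CF v) {c : ℕ → ℝ}
    (hs : ∀ x, HasSum (fun n => c n • p n x) (v x)) {ε : ℝ} (hε : 0 < ε) :
    ∃ N, ∀ M ≥ N, ∀ N' ≥ N, N' ≤ M →
      Q (fun x => ps p c M x - ps p c N' x) (fun x => ps p c M x - ps p c N' x) ≤ ε := by
  have h1 := (B.summ h ho hv hs).hasSum.tendsto_sum_nat
  obtain ⟨N, hN⟩ := Metric.cauchySeq_iff.1 h1.cauchySeq ε hε
  refine ⟨N, fun M hM N' hN' hNM => ?_⟩
  have h2 := hN M hM N' hN'
  rw [B.sub_self (h.ps_test c M).cf (h.ps_test c N').cf, B.ps_ps h ho c le_rfl,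
    B.comm (ps p c M) (ps p c N'), B.ps_ps h ho c hNM, B.ps_ps h ho c le_rfl]
  rw [Real.dist_eq] at h2
  have := (abs_lt.1 h2).2
  linarith

end BF

/-- The density of the `H¹` norm. -/
noncomputable def dens (u : E3 → E3) (x : E3) : ℝ :=
  ∑ i, u x i * u x i + ∑ i, ∑ j, pd j (fun y => u y i) x * pd j (fun y => u y i) x

theorem dens_nonneg (u : E3 → E3) (x : E3) : 0 ≤ dens u x :=
  add_nonneg (Finset.sum_nonneg fun i _ => mul_self_nonneg _)
    (Finset.sum_nonneg fun i _ => Finset.sum_nonneg fun j _ => mul_self_nonneg _)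

theorem dens_int {u : E3 → E3} (hu : CF u) : Integrable (dens u) volume :=
  (Run7.h407.ip_int hu.sm.continuous hu).add (Run7.h407.Dir_int hu.sm hu)

theorem int_dens {u : E3 → E3} (hu : CF u) : ∫ x, dens u x = ip u u + Dir u u :=
  integral_add (Run7.h407.ip_int hu.sm.continuous hu) (Run7.h407.Dir_int hu.sm hu)

theorem dens_congr {u v : E3 → E3} {x : E3} (h : ∀ᶠ y in 𝓝 x, u y = v y) :
    dens u x = dens v x := by
  unfold dens
  rw [h.self_of_nhds]
  congr 1
  apply Finset.sum_congr rfl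
  intro i _
  apply Finset.sum_congr rfl
  intro j _
  rw [Run7.h407.G.X.pd_ev_eq h]

/-- Integrals over the exteriors of small balls. -/
theorem int_le_of_far {f : E3 → ℝ} (hf : Integrable f volume) {B : ℝ}
    (h : ∀ ρ > 0, ∫ x in {x | ρ < ‖x - z‖}, f x ≤ B) : ∫ x, f x ≤ B := by
  set s : ℕ → Set E3 := fun n => {x | 1 / ((n : ℝ) + 1) < ‖x - z‖} with hs
  have hsm : ∀ n, MeasurableSet (s n) := by
    intro n
    have : Continuous (fun y : E3 => ‖y - z‖) := by fun_prop
    exact (isOpen_lt continuous_const this).measurableSet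
  have hmono : Monotone s := by
    intro m n hmn x hx
    have hx' : 1 / ((m : ℝ) + 1) < ‖x - z‖ := hx
    show 1 / ((n : ℝ) + 1) < ‖x - z‖
    refine lt_of_le_of_lt ?_ hx'
    have : (m : ℝ) ≤ n := by exact_mod_cast hmn
    exact one_div_le_one_div_of_le (by positivity) (by linarith)
  have h1 := tendsto_setIntegral_of_monotone hsm hmono (f := f) (μ := volume) hf.integrableOn
  have h2 : ∫ x in ⋃ n, s n, f x = ∫ x, f x := by
    have e : (⋃ n, s n) = {z}ᶜ := by
      ext x
      simp only [mem_iUnion, hs, mem_ofPred_eq, mem_compl_iff, mem_singleton_iff]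
      constructor
      · rintro ⟨n, hn⟩ rfl
        rw [_root_.sub_self, norm_zero] at hn
        have : (0 : ℝ) < 1 / ((n : ℝ) + 1) := by positivity
        linarith
      · intro hx
        have : 0 < ‖x - z‖ := norm_pos_iff.2 (sub_ne_zero.2 hx)
        exact exists_nat_one_div_lt this
    rw [e]
    have h3 : ∀ᵐ x : E3, x ∈ ({z}ᶜ : Set E3) := by
      rw [ae_iff]
      simp
    rw [Measure.restrict_eq_self_of_ae_mem h3]
  rw [h2] at h1
  exact le_of_tendsto h1 (Eventually.of_forall fun n => h _ (by positivity))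

/-- Smooth superpositions of the modes are in `V`. -/
theorem Md.inV (h : Md Ω z p) {v : E3 → E3} (hv : CF v) {c : ℕ → ℝ}
    (hs : ∀ x, HasSum (fun n => c n • p n x) (v x)) : InV Ω v (grad v) where
  memL2 := fun i => (memLp_cs (hv.smc i).continuous (hv.csc i) 2 volume).restrict Ω
  memL2_grad := fun i j => (memLp_cs (Run7.h407.Sm.pd (hv.smc i) j).continuous
    (Run7.h407.pd_cs (hv.csc i) j) 2 volume).restrict Ω
  approx := fun ε hε => by
    have o1 : ∀ m n, m ≠ n → ip (p m) (p n) = 0 := fun m n hmn => (h.orth m n hmn).1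
    have o2 : ∀ m n, m ≠ n → Dir (p m) (p n) = 0 := fun m n hmn => (h.orth m n hmn).2
    obtain ⟨N1, k1⟩ := bf_ip.tail h o1 hv hs (ε := ε / 3) (by positivity)
    obtain ⟨N2, k2⟩ := bf_Dir.tail h o2 hv hs (ε := ε / 3) (by positivity)
    set N := max N1 N2 with hN
    have hT := h.ps_test c N
    have cd : CF (fun x => v x - ps p c N x) := Run7.h407.G.CF.subf hv hT.cf
    refine ⟨ps p c N, hT, ?_⟩
    have key : ∫ x, dens (fun y => v y - ps p c N y) x ≤ ε / 3 + ε / 3 := by
      apply int_le_of_far (z := z) (dens_int cd)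
      intro ρ hρ
      obtain ⟨N3, k3⟩ := h.far hs hρ
      set M := max N N3 with hM
      have hTM := h.ps_test c M
      have cm : CF (fun x => ps p c M x - ps p c N x) := Run7.h407.G.CF.subf hTM.cf hT.cf
      have e1 : ∫ x in {x | ρ < ‖x - z‖}, dens (fun y => v y - ps p c N y) x
          = ∫ x in {x | ρ < ‖x - z‖}, dens (fun y => ps p c M y - ps p c N y) x := by
        apply setIntegral_congr_fun
        · have : Continuous (fun y : E3 => ‖y - z‖) := by fun_prop
          exact (isOpen_lt continuous_const this).measurableSet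
        · intro x hx
          apply dens_congr
          filter_upwards [Md.ev_lt hx] with y hy
          rw [k3 M (le_max_right _ _) y hy]
      rw [e1]
      refine (setIntegral_le_integral (dens_int cm) (Eventually.of_forall
        (dens_nonneg _))).trans ?_
      rw [int_dens cm]
      exact add_le_add (k1 M ((le_max_left _ _).trans (le_max_left _ _)) N (le_max_left _ _)
        (le_max_left _ _)) (k2 M ((le_max_right _ _).trans (le_max_left _ _)) N
        (le_max_right _ _) (le_max_left _ _))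
    have e2 : ∀ x, ∑ i, (v x i - ps p c N x i) ^ 2
        + ∑ i, ∑ j, (grad v x i j - grad (ps p c N) x i j) ^ 2
        = dens (fun y => v y - ps p c N y) x := by
      intro x
      unfold dens
      congr 1
      · apply Finset.sum_congr rfl
        intro i _
        rw [sq]
        rfl
      · apply Finset.sum_congr rfl
        intro i _
        apply Finset.sum_congr rfl
        intro j _
        have : pd j (fun y => (v y - ps p c N y) i) x = grad v x i j - grad (ps p c N) x i j :=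
          Run7.h407.pd_sub ((hv.smc i).diff x) ((hT.cf.smc i).diff x) j
        rw [this, sq]
    simp_rw [e2]
    refine (setIntegral_le_integral (dens_int cd) (Eventually.of_forall
      (dens_nonneg _))).trans_lt ?_
    linarith

/-- Superpositions of the modes vanish outside `Ω`. -/
theorem Md.zero_out (h : Md Ω z p) {v : E3 → E3} {c : ℕ → ℝ}
    (hs : ∀ x, HasSum (fun n => c n • p n x) (v x)) {x : E3} (hx : x ∉ Ω) : v x = 0 := by
  have h1 := hs x
  have h2 : (fun n => c n • p n x) = fun _ => 0 := by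
    funext n
    rw [(h.test n).zero_out hx, smul_zero]
  rw [h2] at h1
  exact h1.unique hasSum_zero

end Pool.Agent.Run7.h980.BD
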