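import Mathlib
import Pool.Agent.Run7.h980.BD.Core
import Pool.Agent.Run7.h980.BD.Sum
import Pool.Agent.Run7.h980.BD.Loc
import Pool.Agent.Run7.h980.DW.Fin

/-!
From the whole space to an open set, with a blow-up point which may lie on the boundary.
-/

namespace Pool.Agent.Run7.h980.BD

open Set Filter Topology MeasureTheory
open scoped ContDiff
open Pool.Agent.Run7.h407 (CF)
open Pool.Agent.Run7.h407.G (IsSpG)
open Pool.Agent.Run7.h407.G.X (Fam Blo)
open Pool.Agent.Run7.h407.G.X.C980 (Sup CC CC_closed)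
open Pool.Agent.Run7.h980.DW (E3 IsTest InV InH IsStrong Constrained innerL2 dirichlet divergence
  grad l2_of wdf_of WmaxΩ tsupport_sub_of WK isSpG_inf)

variable {Ω : Set E3} {p : ℕ → E3 → E3} {g : ℕ → Fin 3 → E3 → E3} {U : E3 → E3} {z : E3}
  {q : ℝ} {K : Set E3}

theorem inH_of_inV {w : E3 → E3} {G : E3 → Fin 3 → Fin 3 → ℝ} (h : InV Ω w G) : InH Ω w where
  memL2 := h.memL2
  approx := fun ε hε => by
    obtain ⟨v, hv, h1⟩ := h.approx ε hε
    refine ⟨v, hv, lt_of_le_of_lt ?_ h1⟩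
    apply integral_mono_of_nonneg
    · exact Eventually.of_forall fun x => Finset.sum_nonneg fun i _ => sq_nonneg _
    · obtain ⟨m1, m2⟩ := h.err_int hv
      exact (integrable_finsetSum _ fun i _ => (m1 i).integrable_sq).add
        (integrable_finsetSum _ fun i _ => integrable_finsetSum _ fun j _ =>
          (m2 i j).integrable_sq)
    · exact Eventually.of_forall fun x => le_add_of_nonneg_right
        (Finset.sum_nonneg fun i _ => Finset.sum_nonneg fun j _ => sq_nonneg _)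

/-- Admissible spaces on `Ω` are admissible on `ℝ³`. -/
theorem IsSpace.isSpG {W : Submodule ℝ (E3 → E3)} (h : IsSpace Ω p g W)
    (hΩ : MeasurableSet Ω) : IsSpG p g W where
  l2 := fun w hw => l2_of hΩ (h.upper w hw).zero (h.upper w hw).inH.memL2
  wdf := fun w hw => wdf_of (h.upper w hw).zero (h.upper w hw).inH
  cs := fun w hw n i => (h.upper w hw).orth n i
  mem := fun v hv hvc hs => h.lower v hv hvc hs

/-- The largest space is admissible. -/
theorem wmax_isSpace (hΩ : MeasurableSet Ω) (hg : ∀ n i, CF (g n i)) (hM : Md Ω z p)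
    {Wm : Submodule ℝ (E3 → E3)} (hW : IsSpG p g Wm) : IsSpace Ω p g (WmaxΩ hΩ hg) where
  upper := fun _ hw => hw
  lower := fun v hv hvc hs => by
    have h1 := hW.mem v hv hvc hs
    obtain ⟨c, hc⟩ := hs
    exact ⟨fun x hx => hM.zero_out hc hx, inH_of_inV (hM.inV ⟨hv, hvc⟩ hc),
      fun n i => hW.cs v h1 n i⟩

/-- The sums of the modes. -/
noncomputable def WS (p : ℕ → E3 → E3) : Submodule ℝ (E3 → E3) where
  carrier := {w | ∃ c : ℕ → ℝ, ∀ x, HasSum (fun n => c n • p n x) (w x)}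
  add_mem' := by
    rintro u v ⟨a, ha⟩ ⟨b, hb⟩
    refine ⟨fun n => a n + b n, fun x => ?_⟩
    have := (ha x).add (hb x)
    simp_rw [← add_smul] at this
    exact this
  zero_mem' := ⟨fun _ => 0, fun x => by
    simp only [zero_smul]
    exact hasSum_zero⟩
  smul_mem' := by
    rintro r u ⟨a, ha⟩
    refine ⟨fun n => r * a n, fun x => ?_⟩
    have := (ha x).const_smul r
    simp_rw [smul_smul] at this
    exact this

theorem isSpG_sum {W : Submodule ℝ (E3 → E3)} (hW : IsSpG p g W) : IsSpG p g (W ⊓ WS p) where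
  l2 := fun w hw => hW.l2 w hw.1
  wdf := fun w hw => hW.wdf w hw.1
  cs := fun w hw => hW.cs w hw.1
  mem := fun v hv hvc hs => ⟨hW.mem v hv hvc hs, hs⟩

theorem tsupp_sub {v : E3 → E3} (hK : IsClosed K) (hKΩ : K \ {z} ⊆ Ω) (h : ∀ x, x ∉ K → v x = 0)
    (hz : ∀ᶠ x in 𝓝 z, v x = 0) : tsupport v ⊆ Ω \ {z} := by
  intro x hx
  have hxz : x ≠ z := by
    rintro rfl
    exact notMem_tsupport_iff_eventuallyEq.2 hz hx
  exact ⟨hKΩ ⟨tsupport_sub_of hK h hx, hxz⟩, hxz⟩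

theorem md_of (hK : IsClosed K) (hKΩ : K \ {z} ⊆ Ω) (h : Fam q z U p g)
    (hs : Sup (fun x => x ∈ K) z p g) : Md Ω z p where
  test := fun n => ⟨(h.mode n).1, (h.mode n).2.1,
    (tsupp_sub hK hKΩ (hs.mode n) (hs.aw n)).trans sdiff_subset, (h.mode n).2.2.1⟩
  orth := h.orth
  aw := hs.aw
  sm := hs.sm

theorem family_of (hΩ : MeasurableSet Ω) (hK : IsClosed K) (hKΩ : K \ {z} ⊆ Ω)
    (h : Fam q z U p g) (hs : Sup (fun x => x ∈ K) z p g) : IsFamily Ω q z U p g := by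
  obtain ⟨Wm, hWm, hWi⟩ := h.big
  have hgCF : ∀ n i, CF (g n i) := fun n i => ⟨(h.field n i).1, (h.field n i).2.1⟩
  have hM := md_of hK hKΩ h hs
  exact ⟨h.zero, fun n => ⟨hM.test n, (h.mode n).2.2.2⟩, h.orth,
    fun n i => ⟨(h.field n i).1, (h.field n i).2.1,
      tsupp_sub hK hKΩ (hs.field n i) (h.field n i).2.2⟩, h.ball,
    ⟨WmaxΩ hΩ hgCF, wmax_isSpace hΩ hgCF hM hWm, fun w => Iff.rfl⟩⟩

theorem blowsUp_of (hΩ : MeasurableSet Ω) (hb : Bornology.IsBounded Ω) (hK : IsCompact K)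
    (hKΩ : K \ {z} ⊆ Ω) {δ ρ ν T₀ : ℝ} {v : E3 → E3} (hν : 0 < ν) (hF : Fam q z U p g)
    (hs : Sup (fun x => x ∈ K) z p g) (h : Blo δ z ρ p g ν v T₀) :
    BlowsUp Ω δ z p g ν v T₀ := by
  obtain ⟨T, hT, hTA, u, k1, k2, k4, k5, k6, k7⟩ := h
  obtain ⟨Wm, hWm, hWi⟩ := hF.big
  have hMd := md_of hK.isClosed hKΩ hF hs
  have hmode : ∀ n x, x ∉ K \ {z} → p n x = 0 := by
    intro n x hx
    by_cases hxz : x = z
    · rw [hxz]
      exact (hs.aw n).self_of_nhds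
    · exact hs.mode n x fun hxK => hx ⟨hxK, hxz⟩
  have hWK := isSpG_sum (isSpG_inf hWm hmode)
  have hm := (k7 _ hWK).1
  obtain ⟨R, hR⟩ := hK.isBounded.exists_norm_le
  have hu0 : ∀ t ∈ Ico 0 T, ∀ x, x ∉ K \ {z} → u t x = 0 := fun t ht x hx =>
    (hm.mem t ht).1.2 x hx
  have htf : Run7.h407.TF T R u := ⟨hm.cls.sm, fun t ht x hx => hu0 t ht x fun hxK =>
    absurd (hR x hxK.1) (not_le.2 hx)⟩
  have hdv : ∀ t ∈ Ico 0 T, ∀ x, divergence (u t) x = 0 := fun t ht =>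
    Run7.h407.dvg_of_wdf (htf.slice_cont ht) (hWm.wdf _ (hm.mem t ht).1.1)
  have hV : ∀ t ∈ Ico 0 T, InV Ω (u t) (grad (u t)) := fun t ht => by
    obtain ⟨c, hc⟩ := (hm.mem t ht).2
    exact hMd.inV (htf.slice_CF ht) hc
  have F : Flow Ω T R u := ⟨htf, fun t ht x hx => hu0 t ht x fun hxK => hx (hKΩ hxK), hV⟩
  refine ⟨T, hT, hTA, u, hm.cls.sm, k1, ⟨K, hK, fun x hx => ?_, fun t ht =>
    ⟨hdv t ht, hV t ht, hu0 t ht⟩⟩, k4, k5, fun W hW => ?_⟩
  · by_cases hxz : x = z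
    · exact Or.inr hxz
    · exact Or.inl (hKΩ ⟨hx, hxz⟩)
  have hWG := hW.isSpG hΩ
  obtain ⟨l1, -⟩ := k7 W hWG
  have hz0 : ∀ v ∈ W, ∀ x ∉ Ω, v x = 0 := fun v hv x hx => (hW.upper v hv).zero x hx
  refine ⟨fun S hS => ?_, fun S w G w' hw => ?_⟩
  · rcases le_or_gt 0 S with hS0 | hS0
    · obtain ⟨C, hC⟩ := l1.cls.bd S ⟨hS0, hS⟩
      have := F.strong hb hΩ l1.mem hz0 l1.eqn hS (B := C) (fun t ht x => (hC t ht).1 x)
      rw [k1] at this
      exact this
    · have := F.strong hb hΩ l1.mem hz0 l1.eqn hS (B := 0)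
        (fun t ht x => absurd (ht.1.trans ht.2) (not_le.2 hS0))
      rw [k1] at this
      exact this
  · rw [← k1] at hw
    have hST := short hb hΩ F hT k5 hν l1.mem hz0 l1.eqn hw
    refine ⟨hST, ?_⟩
    rcases le_or_gt S 0 with hS0 | hS0
    · rw [Ioo_eq_empty (not_lt.2 hS0)]
      simp
    · exact uniq' hb hΩ F hν l1.mem hz0 l1.eqn hw hS0 le_rfl hST.le

/-- The closed cone without its vertex. -/
theorem cc_sub_cone {r : ℝ} {x : E3} (hx : x - z ∈ CC r) (hxz : x ≠ z) : x ∈ cone z r := by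
  obtain ⟨h0, h1, h2⟩ := hx
  simp only [Pi.sub_apply] at h0 h1
  have h3 : 0 ≤ x 2 - z 2 := le_trans (by positivity) h0
  have h4 : x 2 - z 2 ≤ r := by
    have := norm_le_pi_norm (x - z) 2
    rw [Real.norm_eq_abs, Pi.sub_apply, abs_of_nonneg h3] at this
    exact this.trans h2
  refine ⟨lt_of_le_of_ne h3 fun h => hxz ?_, h4, h0, h1⟩
  rw [← h] at h0 h1
  have a0 : x 0 - z 0 = 0 := abs_nonpos_iff.1 (by linarith)
  have a1 : x 1 - z 1 = 0 := abs_nonpos_iff.1 (by linarith)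
  funext i
  fin_cases i
  · exact sub_eq_zero.1 a0
  · exact sub_eq_zero.1 a1
  · exact sub_eq_zero.1 h.symm

theorem cc_compact (z : E3) (r : ℝ) : IsCompact {x : E3 | x - z ∈ CC r} := by
  have h1 : IsClosed {x : E3 | x - z ∈ CC r} := (CC_closed r).preimage (by fun_prop)
  apply (isCompact_closedBall z r).of_isClosed_subset h1
  intro x hx
  exact mem_closedBall_iff_norm.2 hx.2.2

end Pool.Agent.Run7.h980.BD
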